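import Pool.Agent.J4H63.IS.Stm

/-! Project IS (helper63), piece BC2 (helper98): a satisfying assignment of the block formula gives
an independent set with at least `κ` vertices. -/

set_option autoImplicit false

namespace Pool.Agent.J4H98.IS

open Finset Pool.Agent.J4H64.SS Pool.Agent.J4H95.SP Pool.Agent.J4H63.IS

/-- a chain: true at the start, propagated unless `y t`, false at the end -/
theorem chain {m : ℕ} (w : Fin (m + 1) → Bool) (y : Fin m → Bool) (h0 : w 0 = true)
    (hs : ∀ t : Fin m, w t.castSucc = false ∨ y t = true ∨ w t.succ = true)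
    (hl : w (Fin.last m) = false) : ∃ t, y t = true := by
  by_contra hc
  push Not at hc
  have key : ∀ k : ℕ, ∀ hk : k < m + 1, w ⟨k, hk⟩ = true := by
    intro k
    induction k with
    | zero => intro hk; exact h0
    | succ k ih =>
      intro hk
      have h1 := ih (by omega)
      have h2 := hs ⟨k, by omega⟩
      rcases h2 with h2 | h2 | h2
      · have : w ⟨k, by omega⟩ = false := h2
        rw [h1] at this
        exact absurd this (by decide)
      · exact absurd h2 (hc _)
      · exact h2
  have := key m (by omega)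
  have h3 : w (Fin.last m) = true := this
  rw [hl] at h3
  exact absurd h3 (by decide)

theorem t_BC2 : S_BC2 := by
  intro n b κ hb x c hsat
  obtain ⟨a, ha⟩ := hsat
  -- every clause of the formula with at most three literals has a true literal
  have cl : ∀ q : Finset (Fin (nv n b) × Bool), q.card ≤ 3 → Bk n b κ c x q →
      ∃ l ∈ q, a l.1 = l.2 := by
    intro q hq hB
    have := ha ⟨q, hq⟩ (by simp only [bk, decide_eq_true_eq]; exact hB)
    exact this
  have c1 : ∀ u : Fin (nv n b) × Bool, ({u} : Finset (Fin (nv n b) × Bool)).card ≤ 3 := by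
    intro u; simp
  have c2 : ∀ u v : Fin (nv n b) × Bool, ({u, v} : Finset (Fin (nv n b) × Bool)).card ≤ 3 := by
    intro u v; exact (Finset.card_le_two).trans (by norm_num)
  have c3 : ∀ u v w : Fin (nv n b) × Bool,
      ({u, v, w} : Finset (Fin (nv n b) × Bool)).card ≤ 3 := by
    intro u v w; exact Finset.card_le_three
  -- the sum of the advices
  have hκ : κ ≤ ∑ i, (c i).1 := by
    by_contra h
    push Not at h
    obtain ⟨l, hl, _⟩ := cl ∅ (by simp) (Or.inl ⟨rfl, h⟩)
    simp at hl
  -- the chain
  have hT : ∀ i, ∃ t, a (ev n b (Sum.inr (Sum.inl (i, t)))) = true := by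
    intro i
    refine chain (fun t => a (ev n b (Sum.inr (Sum.inr (i, t)))))
      (fun t => a (ev n b (Sum.inr (Sum.inl (i, t))))) ?_ ?_ ?_
    · obtain ⟨l, hl, h⟩ := cl {lw n b i 0 true} (c1 _)
        (Or.inr (Or.inr (Or.inr (Or.inr (Or.inr (Or.inl ⟨i, rfl⟩))))))
      rw [Finset.mem_singleton] at hl
      subst hl
      exact h
    · intro t
      obtain ⟨l, hl, h⟩ := cl {lw n b i (Fin.castSucc t) false, ly n b i t true,
          lw n b i t.succ true} (c3 _ _ _)
        (Or.inr (Or.inr (Or.inr (Or.inr (Or.inr (Or.inr (Or.inl ⟨i, t, rfl⟩)))))))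
      simp only [Finset.mem_insert, Finset.mem_singleton] at hl
      rcases hl with rfl | rfl | rfl
      · exact Or.inl h
      · exact Or.inr (Or.inl h)
      · exact Or.inr (Or.inr h)
    · obtain ⟨l, hl, h⟩ := cl {lw n b i (Fin.last _) false} (c1 _)
        (Or.inr (Or.inr (Or.inr (Or.inr (Or.inr (Or.inr (Or.inr ⟨i, rfl⟩)))))))
      rw [Finset.mem_singleton] at hl
      subst hl
      exact h
  choose t ht using hT
  -- the chosen sets lie in the graph
  have hlt : ∀ i, ∀ j ∈ sb b (t i), i.1 * b + j.1 < n := by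
    intro i j hj
    by_contra hc
    obtain ⟨l, hl, h⟩ := cl {ly n b i (t i) false} (c1 _)
      (Or.inr (Or.inr (Or.inr (Or.inl ⟨i, t i, ⟨j, hj, hc⟩, rfl⟩))))
    rw [Finset.mem_singleton] at hl
    subst hl
    have h' : a (ev n b (Sum.inr (Sum.inl (i, t i)))) = false := h
    rw [ht i] at h'
    exact absurd h' (by decide)
  have hX : ∀ i, ∀ j ∈ sb b (t i), ∀ h : i.1 * b + j.1 < n,
      a (ev n b (Sum.inl ⟨i.1 * b + j.1, h⟩)) = true := by
    intro i j hj hn
    obtain ⟨l, hl, h⟩ := cl {ly n b i (t i) false, lx n b ⟨_, hn⟩ true} (c2 _ _)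
      (Or.inr (Or.inr (Or.inl ⟨i, t i, j, hj, hn, rfl⟩)))
    simp only [Finset.mem_insert, Finset.mem_singleton] at hl
    rcases hl with rfl | rfl
    · have h' : a (ev n b (Sum.inr (Sum.inl (i, t i)))) = false := h
      rw [ht i] at h'
      exact absurd h' (by decide)
    · exact h
  have hcard : ∀ i, (c i).1 ≤ (sb b (t i)).card := by
    intro i
    by_contra hc
    push Not at hc
    obtain ⟨l, hl, h⟩ := cl {ly n b i (t i) false} (c1 _)
      (Or.inr (Or.inr (Or.inr (Or.inr (Or.inl ⟨i, t i, hc, rfl⟩)))))
    rw [Finset.mem_singleton] at hl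
    subst hl
    have h' : a (ev n b (Sum.inr (Sum.inl (i, t i)))) = false := h
    rw [ht i] at h'
    exact absurd h' (by decide)
  -- edges
  have hE : ∀ p : Pr n, x p = true →
      a (ev n b (Sum.inl p.1.1)) = false ∨ a (ev n b (Sum.inl p.1.2)) = false := by
    intro p hp
    obtain ⟨l, hl, h⟩ := cl {lx n b p.1.1 false, lx n b p.1.2 false} (c2 _ _)
      (Or.inr (Or.inl ⟨p, hp, rfl⟩))
    simp only [Finset.mem_insert, Finset.mem_singleton] at hl
    rcases hl with rfl | rfl
    · exact Or.inl h
    · exact Or.inr h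
  refine ⟨univ.filter (fun v => a (ev n b (Sum.inl v)) = true), ?_, ?_⟩
  · -- cardinality
    have h1 : (Finset.univ.sigma (fun i => sb b (t i))).card ≤
        ((univ.filter (fun v => a (ev n b (Sum.inl v)) = true)).map
          Fin.valEmbedding).card := by
      refine Finset.card_le_card_of_injOn (fun p => p.1.1 * b + p.2.1) ?_ ?_
      · rintro ⟨i, j⟩ hp
        simp only [Finset.coe_sigma, Set.mem_sigma_iff, Finset.mem_coe, Finset.mem_univ,
          true_and] at hp
        simp only [Finset.coe_map, Set.mem_image, Finset.mem_coe, Finset.mem_filter,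
          Finset.mem_univ, true_and]
        exact ⟨⟨i.1 * b + j.1, hlt i j hp⟩, hX i j hp _, rfl⟩
      · rintro ⟨i, j⟩ _ ⟨i', j'⟩ _ h
        have h' : i.1 * b + j.1 = i'.1 * b + j'.1 := h
        have hj := j.2
        have hj' := j'.2
        have e1 : (i.1 * b + j.1) / b = i.1 := by
          rw [mul_comm, Nat.mul_add_div (by omega), Nat.div_eq_of_lt hj, add_zero]
        have e2 : (i'.1 * b + j'.1) / b = i'.1 := by
          rw [mul_comm, Nat.mul_add_div (by omega), Nat.div_eq_of_lt hj', add_zero]
        have e3 : i = i' := by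
          apply Fin.ext
          rw [← e1, ← e2, h']
        subst e3
        have e4 : j = j' := Fin.ext (by omega)
        subst e4
        rfl
    rw [Finset.card_map, Finset.card_sigma] at h1
    calc κ ≤ ∑ i, (c i).1 := hκ
      _ ≤ ∑ i, (sb b (t i)).card := Finset.sum_le_sum fun i _ => hcard i
      _ ≤ _ := h1
  · intro u hu v hv hadj
    simp only [Finset.mem_filter, Finset.mem_univ, true_and] at hu hv
    rcases hadj with ⟨h, hx⟩ | ⟨h, hx⟩
    · rcases hE _ hx with h2 | h2
      · rw [hu] at h2; exact absurd h2 (by decide)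
      · rw [hv] at h2; exact absurd h2 (by decide)
    · rcases hE _ hx with h2 | h2
      · rw [hv] at h2; exact absurd h2 (by decide)
      · rw [hu] at h2; exact absurd h2 (by decide)

end Pool.Agent.J4H98.IS
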